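import Mathlib
import Pool.Agent.Run7.h883.RootedTree

/-!
# Trees of maximum degree at most 10 with exponential domination number at most `√n`
-/

set_option autoImplicit false

namespace Pool.Agent.Results.MP_75fda7_co.SquareRootTrees

open SimpleGraph

/-- `dist_{(G,S)}(u, v)`: the least number of edges of a path `P` from `u` to `v` such that exactly one
endvertex of `P` lies in `S` and no internal vertex of `P` lies in `S` (and `∞` if there is no such
path). -/
noncomputable def expDist {V : Type} (G : SimpleGraph V) (S : Finset V) (u v : V) : ℕ∞ :=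
  ⨅ (p : G.Walk u v) (_ : p.IsPath ∧ ({x | (x = u ∨ x = v) ∧ x ∈ S} : Set V).ncard = 1 ∧
    ∀ x ∈ p.support, x ≠ u → x ≠ v → x ∉ S), (p.length : ℕ∞)

/-- `(1/2)^(d-1)`, which is `2` for `d = 0` and `0` for `d = ∞` -/
noncomputable def wt (d : ℕ∞) : ℝ := if d = ⊤ then 0 else 2 * (1 / 2) ^ d.toNat

/-- `w_{(G,S)}(u)` -/
noncomputable def weight {V : Type} (G : SimpleGraph V) (S : Finset V) (u : V) : ℝ :=
  ∑ v ∈ S, wt (expDist G S u v)

/-- `S` is an exponential dominating set of `G` -/
def IsExpDominating {V : Type} (G : SimpleGraph V) (S : Finset V) : Prop :=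
  ∀ u, 1 ≤ weight G S u

/-- the exponential domination number `γ_e(G)` -/
noncomputable def expDomNumber {V : Type} (G : SimpleGraph V) : ℕ :=
  sInf {k | ∃ S : Finset V, IsExpDominating G S ∧ S.card = k}

/-! ### The tree -/

/-- the vertices: words of length at most `2 l` over eight letters (the complete tree of depth `2 l` in
which every inner vertex has eight children) and, for every word of length `l`, an extra leaf. -/
abbrev W (l : ℕ) : Type :=
  {L : List (Fin 8) // L.length ≤ 2 * l} ⊕ {L : List (Fin 8) // L.length = l}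

/-- the root -/
def root (l : ℕ) : W l := Sum.inl ⟨[], by simp⟩

/-- the parent of a vertex -/
def par (l : ℕ) : W l → W l
  | Sum.inl x => Sum.inl ⟨x.1.tail, by rw [List.length_tail]; have := x.2; omega⟩
  | Sum.inr x => Sum.inl ⟨x.1, by have := x.2; omega⟩

/-- the depth of a vertex -/
def dep (l : ℕ) : W l → ℕ
  | Sum.inl x => x.1.length
  | Sum.inr _ => l + 1

/-- the tree -/
def T (l : ℕ) : SimpleGraph (W l) where
  Adj u v := (u ≠ root l ∧ par l u = v) ∨ (v ≠ root l ∧ par l v = u)
  symm := ⟨fun _ _ h => h.symm⟩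
  loopless := ⟨by
    have key : ∀ u : W l, u ≠ root l → par l u ≠ u := by
      intro u hu h
      rcases u with ⟨x, hx⟩ | ⟨x, hx⟩
      · cases x with
        | nil => exact hu rfl
        | cons a x =>
          have h1 := congrArg (dep l) h
          simp [par, dep] at h1
      · simp [par] at h
    rintro u (⟨h1, h2⟩ | ⟨h1, h2⟩)
    · exact key u h1 h2
    · exact key u h1 h2⟩

theorem dep_par (l : ℕ) (v : W l) (hv : v ≠ root l) : dep l v = dep l (par l v) + 1 := by
  rcases v with ⟨x, hx⟩ | ⟨x, hx⟩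
  · cases x with
    | nil => exact absurd rfl hv
    | cons a x => simp [par, dep]
  · simp [par, dep, hx]

theorem T_isTree (l : ℕ) : (T l).IsTree :=
  Run7.h883.isTree_of_parent (T l) (root l) (par l) (dep l) (dep_par l) fun _ _ => Iff.rfl

instance (l : ℕ) : Finite (W l) := by
  have h1 : Finite {L : List (Fin 8) // L.length ≤ 2 * l} := List.finite_length_le (Fin 8) (2 * l)
  have h2 : Finite {L : List (Fin 8) // L.length = l} := List.finite_length_eq (Fin 8) l
  infer_instance

/-- the children of `v` that are words -/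
def ch (l : ℕ) (v : W l) (a : Fin 8) : W l :=
  match v with
  | Sum.inl x => if h : (a :: x.1).length ≤ 2 * l then Sum.inl ⟨a :: x.1, h⟩ else root l
  | Sum.inr _ => root l

/-- the extra leaf at `v` -/
def ex (l : ℕ) (v : W l) : W l :=
  match v with
  | Sum.inl x => if h : x.1.length = l then Sum.inr ⟨x.1, h⟩ else root l
  | Sum.inr _ => root l

theorem neighbors_sub (l : ℕ) (v : W l) :
    (T l).neighborSet v ⊆ ({par l v} ∪ Set.range (ch l v)) ∪ {ex l v} := by
  intro u hu
  rw [mem_neighborSet] at hu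
  rcases hu with ⟨_, h⟩ | ⟨hu, h⟩
  · left; left
    exact h.symm
  · subst h
    rcases u with ⟨x, hx⟩ | ⟨x, hx⟩
    · cases x with
      | nil => exact absurd rfl hu
      | cons a x =>
        left; right
        refine ⟨a, ?_⟩
        simp only [ch, par, List.tail_cons]
        rw [dif_pos hx]
    · right
      simp only [ex, par, Set.mem_singleton_iff]
      rw [dif_pos hx]

theorem degree_le (l : ℕ) (v : W l) : ((T l).neighborSet v).ncard ≤ 10 := by
  refine (Set.ncard_le_ncard (neighbors_sub l v) (Set.toFinite _)).trans ?_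
  refine (Set.ncard_union_le _ _).trans ?_
  have h1 := Set.ncard_union_le ({par l v} : Set (W l)) (Set.range (ch l v))
  have h2 : (Set.range (ch l v)).ncard ≤ 8 := by
    rw [← Set.image_univ]
    refine (Set.ncard_image_le (Set.toFinite _)).trans ?_
    rw [Set.ncard_univ, Nat.card_fin]
  rw [Set.ncard_singleton] at h1 ⊢
  omega

/-- the walk to the root -/
theorem up_walk (l : ℕ) (L : List (Fin 8)) (h : L.length ≤ 2 * l) :
    ∃ p : (T l).Walk (Sum.inl ⟨L, h⟩) (root l), p.length = L.length ∧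
      ∀ x ∈ p.support, ∃ y, x = Sum.inl y := by
  induction L with
  | nil =>
    show ∃ p : (T l).Walk (root l) (root l), p.length = ([] : List (Fin 8)).length ∧
      ∀ x ∈ p.support, ∃ y, x = Sum.inl y
    refine ⟨Walk.nil, rfl, ?_⟩
    intro x hx
    rw [Walk.support_nil, List.mem_singleton] at hx
    exact ⟨_, hx⟩
  | cons a L ih =>
    have h' : L.length ≤ 2 * l := by simp at h; omega
    obtain ⟨p, hp, hs⟩ := ih h'
    have hadj : (T l).Adj (Sum.inl ⟨a :: L, h⟩) (Sum.inl ⟨L, h'⟩) := by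
      left
      refine ⟨?_, rfl⟩
      intro h0
      have := congrArg (dep l) h0
      simp [dep, root] at this
    refine ⟨Walk.cons hadj p, by simp [hp], ?_⟩
    intro x hx
    rw [Walk.support_cons, List.mem_cons] at hx
    rcases hx with rfl | hx
    · exact ⟨_, rfl⟩
    · exact hs x hx

/-- the extra leaves -/
noncomputable def S (l : ℕ) : Finset (W l) :=
  (Set.toFinite (Set.range (Sum.inr : {L : List (Fin 8) // L.length = l} → W l))).toFinset

theorem mem_S (l : ℕ) (x : W l) : x ∈ S l ↔ ∃ y, Sum.inr y = x := by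
  simp [S]

theorem card_S (l : ℕ) : (S l).card = 8 ^ l := by
  have h1 : (S l).card = (Set.range (Sum.inr : {L : List (Fin 8) // L.length = l} → W l)).ncard := by
    rw [Set.ncard_eq_toFinset_card _ (Set.toFinite _)]
    rfl
  rw [h1, ← Set.image_univ, Set.ncard_image_of_injective _ Sum.inr_injective, Set.ncard_univ]
  have h2 := card_vector (α := Fin 8) l
  rw [Fintype.card_fin, ← Nat.card_eq_fintype_card] at h2
  exact h2

theorem expDist_le (l : ℕ) (L : List (Fin 8)) (h : L.length ≤ 2 * l)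
    (M : {M : List (Fin 8) // M.length = l}) :
    expDist (T l) (S l) (Sum.inl ⟨L, h⟩) (Sum.inr M) ≤ ((3 * l + 1 : ℕ) : ℕ∞) := by
  classical
  obtain ⟨p, hp, hps⟩ := up_walk l L h
  obtain ⟨M, hM⟩ := M
  have hM' : M.length ≤ 2 * l := by omega
  obtain ⟨q, hq, hqs⟩ := up_walk l M hM'
  have hadj : (T l).Adj (Sum.inl ⟨M, hM'⟩) (Sum.inr ⟨M, hM⟩) := by
    right
    exact ⟨by simp [root], rfl⟩
  set P := p.append (q.reverse.concat hadj) with hP
  have hPlen : P.length = L.length + (l + 1) := by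
    rw [hP, Walk.length_append, Walk.length_concat, Walk.length_reverse, hp, hq, hM]
  have hPs : ∀ x ∈ P.support, x = Sum.inr ⟨M, hM⟩ ∨ ∃ y, x = Sum.inl y := by
    intro x hx
    rw [hP, Walk.mem_support_append_iff] at hx
    rcases hx with hx | hx
    · exact Or.inr (hps x hx)
    · rw [Walk.support_concat, List.mem_append, List.mem_singleton,
        Walk.support_reverse, List.mem_reverse] at hx
      rcases hx with hx | hx
      · exact Or.inr (hqs x hx)
      · exact Or.inl hx
  have c1 : ({x | (x = (Sum.inl ⟨L, h⟩ : W l) ∨ x = Sum.inr ⟨M, hM⟩) ∧ x ∈ S l} :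
      Set (W l)).ncard = 1 := by
    rw [Set.ncard_eq_one]
    refine ⟨Sum.inr ⟨M, hM⟩, ?_⟩
    ext x
    simp only [Set.mem_ofPred_eq, Set.mem_singleton_iff]
    constructor
    · rintro ⟨rfl | rfl, hx⟩
      · rw [mem_S] at hx
        obtain ⟨y, hy⟩ := hx
        exact absurd hy (by simp)
      · rfl
    · rintro rfl
      exact ⟨Or.inr rfl, (mem_S l _).2 ⟨_, rfl⟩⟩
  have c2 : ∀ x ∈ P.bypass.support, x ≠ Sum.inl ⟨L, h⟩ → x ≠ Sum.inr ⟨M, hM⟩ → x ∉ S l := by
    intro x hx _ hxv hxS
    rw [mem_S] at hxS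
    obtain ⟨y, hy⟩ := hxS
    rcases hPs x (P.support_bypass_subset_support hx) with h1 | ⟨z, h1⟩
    · exact hxv h1
    · rw [h1] at hy
      exact absurd hy (by simp)
  refine (iInf₂_le P.bypass ⟨P.bypass_isPath, c1, c2⟩).trans ?_
  have h1 : P.bypass.length ≤ P.length := P.length_bypass_le_length
  exact_mod_cast (by omega : P.bypass.length ≤ 3 * l + 1)

theorem wt_nonneg (d : ℕ∞) : 0 ≤ wt d := by
  unfold wt
  split_ifs
  · exact le_rfl
  · positivity

theorem wt_ge {d : ℕ∞} {k : ℕ} (h : d ≤ (k : ℕ∞)) : 2 * (1 / 2 : ℝ) ^ k ≤ wt d := by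
  have hne : d ≠ ⊤ := ne_top_of_le_ne_top (ENat.natCast_ne_top k) h
  rw [wt, if_neg hne]
  have h1 : d.toNat ≤ k := by
    have := ENat.toNat_le_toNat h (ENat.natCast_ne_top k)
    simpa using this
  have h2 : (1 / 2 : ℝ) ^ k ≤ (1 / 2) ^ d.toNat :=
    pow_le_pow_of_le_one (by norm_num) (by norm_num) h1
  linarith

theorem dominating (l : ℕ) : IsExpDominating (T l) (S l) := by
  classical
  rintro (⟨L, h⟩ | M)
  · have h1 : ∀ v ∈ S l, (2 * (1 / 2 : ℝ) ^ (3 * l + 1)) ≤
        wt (expDist (T l) (S l) (Sum.inl ⟨L, h⟩) v) := by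
      intro v hv
      obtain ⟨M, rfl⟩ := (mem_S l v).1 hv
      exact wt_ge (expDist_le l L h M)
    have h2 := Finset.card_nsmul_le_sum _ _ _ h1
    rw [card_S, nsmul_eq_mul] at h2
    refine le_trans (le_of_eq ?_) h2
    push_cast
    rw [pow_succ, pow_mul]
    have h3 : (8 : ℝ) ^ l * ((1 / 2 : ℝ) ^ 3) ^ l = 1 := by
      rw [← mul_pow]
      norm_num
    calc (1 : ℝ) = (8 : ℝ) ^ l * ((1 / 2 : ℝ) ^ 3) ^ l := h3.symm
      _ = (8 : ℝ) ^ l * (2 * (((1 / 2 : ℝ) ^ 3) ^ l * (1 / 2))) := by ring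
  · have hmem : (Sum.inr M : W l) ∈ S l := (mem_S l _).2 ⟨M, rfl⟩
    have h1 : wt (expDist (T l) (S l) (Sum.inr M) (Sum.inr M)) ≤
        weight (T l) (S l) (Sum.inr M) :=
      Finset.single_le_sum (f := fun v => wt (expDist (T l) (S l) (Sum.inr M) v))
        (fun v _ => wt_nonneg _) hmem
    refine le_trans ?_ h1
    have h2 : expDist (T l) (S l) (Sum.inr M) (Sum.inr M) ≤ ((0 : ℕ) : ℕ∞) := by
      have c1 : ({x | (x = (Sum.inr M : W l) ∨ x = Sum.inr M) ∧ x ∈ S l} : Set (W l)).ncard = 1 := by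
        rw [Set.ncard_eq_one]
        refine ⟨Sum.inr M, ?_⟩
        ext x
        simp only [Set.mem_ofPred_eq, Set.mem_singleton_iff, or_self]
        constructor
        · exact fun hx => hx.1
        · rintro rfl
          exact ⟨rfl, hmem⟩
      have c2 : ∀ x ∈ (Walk.nil : (T l).Walk (Sum.inr M) (Sum.inr M)).support,
          x ≠ Sum.inr M → x ≠ Sum.inr M → x ∉ S l := by
        intro x hx hx'
        rw [Walk.support_nil, List.mem_singleton] at hx
        exact absurd hx hx'
      refine (iInf₂_le (Walk.nil : (T l).Walk (Sum.inr M) (Sum.inr M))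
        ⟨Walk.IsPath.nil, c1, c2⟩).trans ?_
      simp
    have h3 := wt_ge h2
    norm_num at h3
    linarith

theorem card_W (l : ℕ) : 64 ^ l ≤ Nat.card (W l) := by
  have h2 := card_vector (α := Fin 8) (2 * l)
  rw [Fintype.card_fin, ← Nat.card_eq_fintype_card] at h2
  have h3 : (64 : ℕ) ^ l = 8 ^ (2 * l) := by rw [pow_mul]; norm_num
  rw [h3, ← h2]
  refine Nat.card_le_card_of_injective
    (fun x : List.Vector (Fin 8) (2 * l) => (Sum.inl ⟨x.1, x.2.le⟩ : W l)) ?_
  intro x y hxy
  have h4 := Sum.inl_injective hxy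
  exact Subtype.ext (congrArg (fun z : {L : List (Fin 8) // L.length ≤ 2 * l} => z.1) h4)

theorem gamma_le (l : ℕ) : expDomNumber (T l) ≤ 8 ^ l :=
  Nat.sInf_le ⟨S l, dominating l, card_S l⟩

theorem main (N : ℕ) : ∃ (V : Type) (_ : Finite V) (G : SimpleGraph V), G.IsTree ∧
    (∀ v, (G.neighborSet v).ncard ≤ 10) ∧ N ≤ Nat.card V ∧ (expDomNumber G) ^ 2 ≤ Nat.card V := by
  have h1 : N ≤ 64 ^ N := (Nat.lt_pow_self (by norm_num)).le
  refine ⟨W N, inferInstance, T N, T_isTree N, degree_le N, h1.trans (card_W N), ?_⟩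
  refine (Nat.pow_le_pow_left (gamma_le N) 2).trans ((le_of_eq ?_).trans (card_W N))
  rw [← pow_mul, mul_comm, pow_mul]
  norm_num

/-- **Q1 of MP_75fda7_co, negative answer** (for the degree bound `10`): there are trees of maximum
degree at most `10` with arbitrarily many vertices `n` and `γ_e ≤ √n`; in particular there is no constant
`c > 0` with `γ_e(T) ≥ c n / log n` for all trees `T` of maximum degree at most `10` with `n ≥ 2`
vertices. -/
theorem result :
    (∀ N : ℕ, ∃ (V : Type) (_ : Finite V) (G : SimpleGraph V), G.IsTree ∧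
      (∀ v, (G.neighborSet v).ncard ≤ 10) ∧ N ≤ Nat.card V ∧
      (expDomNumber G : ℝ) ≤ Real.sqrt (Nat.card V)) ∧
    ¬ ∃ c : ℝ, 0 < c ∧ ∀ (V : Type) (_ : Finite V) (G : SimpleGraph V), G.IsTree →
      (∀ v, (G.neighborSet v).ncard ≤ 10) → 2 ≤ Nat.card V →
      c * (Nat.card V / Real.log (Nat.card V)) ≤ (expDomNumber G : ℝ) := by
  have hmain : ∀ N : ℕ, ∃ (V : Type) (_ : Finite V) (G : SimpleGraph V), G.IsTree ∧
      (∀ v, (G.neighborSet v).ncard ≤ 10) ∧ N ≤ Nat.card V ∧
      (expDomNumber G : ℝ) ≤ Real.sqrt (Nat.card V) := by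
    intro N
    obtain ⟨V, hV, G, h1, h2, h3, h4⟩ := main N
    refine ⟨V, hV, G, h1, h2, h3, ?_⟩
    apply Real.le_sqrt_of_sq_le
    exact_mod_cast h4
  refine ⟨hmain, ?_⟩
  rintro ⟨c, hc, hall⟩
  have hlo := (isLittleO_log_rpow_atTop (show (0 : ℝ) < 1 / 2 by norm_num)).def
    (show (0 : ℝ) < c / 2 by positivity)
  rw [Filter.eventually_atTop] at hlo
  obtain ⟨x₀, hx₀⟩ := hlo
  obtain ⟨M, hM⟩ := exists_nat_ge x₀
  obtain ⟨V, hV, G, h1, h2, h3, h4⟩ := hmain (max M 3)
  have hn3 : 3 ≤ Nat.card V := (le_max_right _ _).trans h3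
  have hnM : M ≤ Nat.card V := (le_max_left _ _).trans h3
  have h5 := hall V hV G h1 h2 (by omega)
  set n : ℝ := (Nat.card V : ℝ) with hn
  have hn3' : (3 : ℝ) ≤ n := by rw [hn]; exact_mod_cast hn3
  have h6 := hx₀ n (hM.trans (by rw [hn]; exact_mod_cast hnM))
  have hlog : 0 < Real.log n := Real.log_pos (by linarith)
  rw [Real.norm_of_nonneg hlog.le, Real.norm_of_nonneg (by positivity), ← Real.sqrt_eq_rpow] at h6
  have hs : 0 < Real.sqrt n := Real.sqrt_pos.2 (by linarith)
  have h7 : c * (n / Real.log n) ≤ Real.sqrt n := h5.trans h4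
  have h8 : c * n ≤ Real.sqrt n * Real.log n := by
    have := mul_le_mul_of_nonneg_right h7 hlog.le
    have h9 : c * (n / Real.log n) * Real.log n = c * n := by field_simp
    linarith
  have h9 : Real.sqrt n * Real.log n ≤ Real.sqrt n * (c / 2 * Real.sqrt n) :=
    mul_le_mul_of_nonneg_left h6 hs.le
  have h10 : Real.sqrt n * Real.sqrt n = n := Real.mul_self_sqrt (by linarith)
  nlinarith

end Pool.Agent.Results.MP_75fda7_co.SquareRootTrees
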